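import Mathlib
import Pool.Agent.Lib.MP_1ad17e_al_helper12.Defs

/-! T5: a critical-type abelian subgroup. -/

namespace E1ad.helper49

open Subgroup
open scoped commutatorElement

/-- In a finite 2-group, a nontrivial normal subgroup contains a central element `≠ 1`. -/
theorem exists_central {P : Type*} [Group P] [Finite P] (hP : IsPGroup 2 P) (N : Subgroup P)
    [N.Normal] (hN : N ≠ ⊥) : ∃ y ∈ N, y ≠ 1 ∧ ∀ q : P, q * y = y * q := by
  haveI : Fact (Nat.Prime 2) := ⟨Nat.prime_two⟩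
  have hP' : IsPGroup 2 (ConjAct P) := hP.of_equiv ConjAct.toConjAct
  have h1 := hP'.exists_fixed_point_of_prime_dvd_card_of_fixed_point (N : Subgroup P)
  have hcard : 2 ∣ Nat.card N := by
    rcases (hP.to_subgroup N).card_eq_or_dvd with h | h
    · exact absurd ((Subgroup.card_eq_one).1 h) hN
    · exact h
  obtain ⟨b, hb, hb1⟩ := h1 hcard (a := (1 : N)) (fun g => by simp)
  refine ⟨b, b.2, fun h => hb1 (Subtype.ext (by simpa using h.symm)), fun q => ?_⟩
  have h2 := hb (ConjAct.toConjAct q)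
  have h3 := congrArg Subtype.val h2
  rw [ConjAct.Subgroup.val_conj_smul, ConjAct.smul_def] at h3
  simp only [ConjAct.ofConjAct_toConjAct] at h3
  exact mul_inv_eq_iff_eq_mul.1 h3

/-- relative version inside a group `G`. -/
theorem exists_rel {G : Type*} [Group G] (Q A Y : Subgroup G) [Finite Q] (hQ : IsPGroup 2 Q)
    (hAQ : A ≤ Q) (hYQ : Y ≤ Q) (hA : ∀ q ∈ Q, ∀ x ∈ A, q * x * q⁻¹ ∈ A)
    (hY : ∀ q ∈ Q, ∀ y ∈ Y, q * y * q⁻¹ ∈ Y) (hn : ¬ Y ≤ A) :
    ∃ y ∈ Y, y ∉ A ∧ y ^ 2 ∈ A ∧ ∀ q ∈ Q, ⁅y, q⁆ ∈ A := by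
  haveI hAn : (A.subgroupOf Q).Normal := ⟨fun x hx g => by
    rw [Subgroup.mem_subgroupOf] at hx ⊢
    exact hA g g.2 x hx⟩
  haveI hYn : (Y.subgroupOf Q).Normal := ⟨fun x hx g => by
    rw [Subgroup.mem_subgroupOf] at hx ⊢
    exact hY g g.2 x hx⟩
  set π : Q →* Q ⧸ A.subgroupOf Q := QuotientGroup.mk' _ with hπ
  have hπs : Function.Surjective π := QuotientGroup.mk'_surjective _
  haveI hN : ((Y.subgroupOf Q).map π).Normal := Subgroup.Normal.map hYn π hπs
  have hker : ∀ x : Q, π x = 1 ↔ (x : G) ∈ A := fun x => by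
    rw [hπ, QuotientGroup.mk'_apply, QuotientGroup.eq_one_iff, Subgroup.mem_subgroupOf]
  have hNb : (Y.subgroupOf Q).map π ≠ ⊥ := by
    intro h
    apply hn
    intro y hy
    have : π ⟨y, hYQ hy⟩ ∈ (Y.subgroupOf Q).map π :=
      Subgroup.mem_map_of_mem _ (by rw [Subgroup.mem_subgroupOf]; exact hy)
    rw [h, Subgroup.mem_bot] at this
    exact (hker _).1 this
  obtain ⟨z, hz, hz1, hzc⟩ := exists_central (hQ.to_quotient (A.subgroupOf Q)) _ hNb
  obtain ⟨y, hy, rfl⟩ := hz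
  rw [SetLike.mem_coe, Subgroup.mem_subgroupOf] at hy
  have hyc : ∀ m : ℕ, ∀ q ∈ Q, ⁅(y : G) ^ m, q⁆ ∈ A := by
    intro m q hq
    have h1 : Commute (π ⟨q, hq⟩) (π y) := hzc _
    have h2 : Commute (π y ^ m) (π ⟨q, hq⟩) := (h1.pow_right m).symm
    have h3 : π ⁅y ^ m, (⟨q, hq⟩ : Q)⁆ = 1 := by
      rw [map_commutatorElement, map_pow, commutatorElement_eq_one_iff_commute]
      exact h2
    have h4 := (hker _).1 h3
    simpa [commutatorElement_def] using h4
  have hex : ∃ k : ℕ, (y : G) ^ (2 ^ k) ∈ A := by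
    obtain ⟨k, hk⟩ := hQ y
    refine ⟨k, ?_⟩
    have := congrArg Subtype.val hk
    simp only [Subgroup.coe_pow, Subgroup.coe_one] at this
    rw [this]
    exact A.one_mem
  classical
  have hk := Nat.find_spec hex
  have hmin := fun m => Nat.find_min (m := m) hex
  generalize Nat.find hex = k at hk hmin
  rcases k with _ | k
  · exfalso
    apply hz1
    rw [hker]
    simpa using hk
  · refine ⟨(y : G) ^ (2 ^ k), Y.pow_mem hy _, hmin k (Nat.lt_succ_self k), ?_, hyc _⟩
    rw [← pow_mul, ← pow_succ]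
    exact hk

/-- T5 (file Crit.lean) -/
theorem crit {G : Type*} [Group G] (Q D : Subgroup G) [Finite Q] (hQ : IsPGroup 2 Q)
    (hQD : Q ≤ D) (hD : ∀ d ∈ D, ∀ q ∈ Q, d * q * d⁻¹ ∈ Q) :
    ∃ A : Subgroup G, A ≤ Q ∧ (∀ x ∈ A, ∀ y ∈ A, x * y = y * x) ∧
      (∀ d ∈ D, ∀ x ∈ A, d * x * d⁻¹ ∈ A) ∧
      (∀ r ∈ Q, ∀ r' ∈ Q, (∀ x ∈ A, r * x = x * r) → (∀ x ∈ A, r' * x = x * r') →
        r ^ 2 ∈ A ∧ ⁅r, r'⁆ ∈ A) := by
  classical
  let S : Set (Subgroup G) := {A | A ≤ Q ∧ (∀ x ∈ A, ∀ y ∈ A, x * y = y * x) ∧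
      (∀ d ∈ D, ∀ x ∈ A, d * x * d⁻¹ ∈ A)}
  have hSfin : S.Finite := by
    have h1 : ((Q : Set G)).Finite := Set.toFinite _
    have h2 : {b : Set G | b ⊆ Q}.Finite := h1.finite_subsets
    have h3 : ((fun A : Subgroup G => (A : Set G)) ⁻¹' {b : Set G | b ⊆ Q}).Finite :=
      h2.preimage (SetLike.coe_injective.injOn)
    refine h3.subset ?_
    intro A hA
    exact hA.1
  have hSne : S.Nonempty := by
    refine ⟨⊥, bot_le, ?_, ?_⟩
    · intro x hx y hy
      rw [Subgroup.mem_bot] at hx hy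
      rw [hx, hy]
    · intro d _ x hx
      rw [Subgroup.mem_bot] at hx ⊢
      rw [hx]
      simp
  obtain ⟨A, hAS, hAmax⟩ := hSfin.exists_maximal hSne
  obtain ⟨hAQ, hAab, hAD⟩ := hAS
  refine ⟨A, hAQ, hAab, hAD, ?_⟩
  have hAQn : ∀ q ∈ Q, ∀ x ∈ A, q * x * q⁻¹ ∈ A := fun q hq => hAD q (hQD hq)
  -- the subgroup `K`
  let K : Subgroup G :=
    { carrier := {k | k ∈ Q ∧ (∀ x ∈ A, k * x = x * k) ∧ k ^ 2 ∈ A ∧ ∀ q ∈ Q, ⁅k, q⁆ ∈ A}
      one_mem' := by
        refine ⟨Q.one_mem, fun x _ => by simp, by simp, fun q _ => ?_⟩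
        simp
      mul_mem' := by
        rintro a b ⟨ha, hac, ha2, haq⟩ ⟨hb, hbc, hb2, hbq⟩
        refine ⟨Q.mul_mem ha hb, fun x hx => ?_, ?_, fun q hq => ?_⟩
        · rw [mul_assoc, hbc x hx, ← mul_assoc, hac x hx, mul_assoc]
        · have h1 : ⁅b, a⁆ ∈ A := hbq a ha
          have h2 : (a * b) ^ 2 = ⁅b, a⁆ * (a ^ 2 * b ^ 2) := by
            have h3 := hac _ h1
            calc (a * b) ^ 2 = a * (⁅b, a⁆) * (a * b) * b := by
                  rw [commutatorElement_def, pow_two]; group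
              _ = _ := by rw [h3, pow_two, pow_two]; group
          rw [h2]
          exact A.mul_mem h1 (A.mul_mem ha2 hb2)
        · have h2 : ⁅a * b, q⁆ = ⁅b, q⁆ * ⁅a, q⁆ := by
            have h3 := hac _ (hbq q hq)
            calc ⁅a * b, q⁆ = (a * ⁅b, q⁆) * (q * a⁻¹ * q⁻¹) := by
                  simp only [commutatorElement_def]; group
              _ = (⁅b, q⁆ * a) * (q * a⁻¹ * q⁻¹) := by rw [h3]
              _ = _ := by simp only [commutatorElement_def]; group
          rw [h2]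
          exact A.mul_mem (hbq q hq) (haq q hq)
      inv_mem' := by
        rintro a ⟨ha, hac, ha2, haq⟩
        refine ⟨Q.inv_mem ha, fun x hx => ?_, ?_, fun q hq => ?_⟩
        · exact (Commute.inv_left (show Commute a x from hac x hx)).eq
        · rw [inv_pow]
          exact A.inv_mem ha2
        · have h1 : ⁅a⁻¹, q⁆ = ⁅a, q⁆⁻¹ := by
            have h3 := hac _ (A.inv_mem (haq q hq))
            calc ⁅a⁻¹, q⁆ = a⁻¹ * (⁅a, q⁆⁻¹ * a) := by
                  simp only [commutatorElement_def]; group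
              _ = a⁻¹ * (a * ⁅a, q⁆⁻¹) := by rw [h3]
              _ = _ := by group
          rw [h1]
          exact A.inv_mem (haq q hq) }
  have hK : ∀ k, k ∈ K ↔ k ∈ Q ∧ (∀ x ∈ A, k * x = x * k) ∧ k ^ 2 ∈ A ∧ ∀ q ∈ Q, ⁅k, q⁆ ∈ A :=
    fun k => Iff.rfl
  have hAK : A ≤ K := by
    intro x hx
    rw [hK]
    refine ⟨hAQ hx, fun y hy => hAab x hx y hy, A.pow_mem hx 2, fun q hq => ?_⟩
    have : ⁅x, q⁆ = x * (q * x⁻¹ * q⁻¹) := by rw [commutatorElement_def]; group
    rw [this]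
    exact A.mul_mem hx (hAQn q hq _ (A.inv_mem hx))
  have hKD : ∀ d ∈ D, ∀ k ∈ K, d * k * d⁻¹ ∈ K := by
    intro d hd k hk
    rw [hK] at hk ⊢
    obtain ⟨hkQ, hkc, hk2, hkq⟩ := hk
    refine ⟨hD d hd k hkQ, fun x hx => ?_, ?_, fun q hq => ?_⟩
    · have h1 : d⁻¹ * x * d ∈ A := by
        have := hAD d⁻¹ (D.inv_mem hd) x hx
        rwa [inv_inv] at this
      have h2 := hkc _ h1
      calc d * k * d⁻¹ * x = d * (k * (d⁻¹ * x * d)) * d⁻¹ := by group
        _ = d * ((d⁻¹ * x * d) * k) * d⁻¹ := by rw [h2]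
        _ = _ := by group
    · have : (d * k * d⁻¹) ^ 2 = d * k ^ 2 * d⁻¹ := conj_pow
      rw [this]
      exact hAD d hd _ hk2
    · have h1 : d⁻¹ * q * d ∈ Q := by
        have := hD d⁻¹ (D.inv_mem hd) q hq
        rwa [inv_inv] at this
      have h2 := hAD d hd _ (hkq _ h1)
      have h3 : d * ⁅k, d⁻¹ * q * d⁆ * d⁻¹ = ⁅d * k * d⁻¹, q⁆ := by
        simp only [commutatorElement_def]; group
      rwa [h3] at h2
  -- the subgroup `Y`
  let Y : Subgroup G :=
    { carrier := {y | y ∈ Q ∧ ∀ k ∈ K, y * k = k * y}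
      one_mem' := ⟨Q.one_mem, fun k _ => by simp⟩
      mul_mem' := by
        rintro a b ⟨ha, hac⟩ ⟨hb, hbc⟩
        refine ⟨Q.mul_mem ha hb, fun k hk => ?_⟩
        rw [mul_assoc, hbc k hk, ← mul_assoc, hac k hk, mul_assoc]
      inv_mem' := by
        rintro a ⟨ha, hac⟩
        refine ⟨Q.inv_mem ha, fun k hk => ?_⟩
        exact (Commute.inv_left (show Commute a k from hac k hk)).eq }
  have hY : ∀ y, y ∈ Y ↔ y ∈ Q ∧ ∀ k ∈ K, y * k = k * y := fun y => Iff.rfl
  have hYQ : Y ≤ Q := fun y hy => hy.1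
  have hYD : ∀ d ∈ D, ∀ y ∈ Y, d * y * d⁻¹ ∈ Y := by
    intro d hd y hy
    rw [hY] at hy ⊢
    refine ⟨hD d hd y hy.1, fun k hk => ?_⟩
    have h1 : d⁻¹ * k * d ∈ K := by
      have := hKD d⁻¹ (D.inv_mem hd) k hk
      rwa [inv_inv] at this
    have h2 := hy.2 _ h1
    calc d * y * d⁻¹ * k = d * (y * (d⁻¹ * k * d)) * d⁻¹ := by group
      _ = d * ((d⁻¹ * k * d) * y) * d⁻¹ := by rw [h2]
      _ = _ := by group
  have hYA : Y ≤ A := by
    by_contra hcon
    obtain ⟨y, hyY, hyA, hy2, hyq⟩ := exists_rel Q A Y hQ hAQ hYQ hAQn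
      (fun q hq => hYD q (hQD hq)) hcon
    have hyK : y ∈ K := (hK y).2 ⟨hYQ hyY, fun x hx => ((hY y).1 hyY).2 x (hAK hx), hy2, hyq⟩
    have hmem : K ⊓ Y ∈ S := by
      refine ⟨inf_le_right.trans hYQ, ?_, ?_⟩
      · intro x hx z hz
        exact ((hY x).1 hx.2).2 z hz.1
      · intro d hd x hx
        exact ⟨hKD d hd x hx.1, hYD d hd x hx.2⟩
    have hle : A ≤ K ⊓ Y := by
      refine le_inf hAK ?_
      intro x hx
      refine (hY x).2 ⟨hAQ hx, fun k hk => ?_⟩
      exact (((hK k).1 hk).2.1 x hx).symm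
    have := hAmax hmem hle
    exact hyA (this ⟨hyK, hyY⟩)
  intro r hr r' hr' hrc hrc'
  refine ⟨hYA ((hY _).2 ⟨Q.pow_mem hr 2, fun k hk => ?_⟩),
    hYA ((hY _).2 ⟨?_, fun k hk => ?_⟩)⟩
  · obtain ⟨hkQ, hkc, hk2, hkq⟩ := (hK k).1 hk
    -- c = [k, r]
    have hc := hkq r hr
    have h1 : k * r = ⁅k, r⁆ * r * k := by rw [commutatorElement_def]; group
    generalize ⁅k, r⁆ = c at hc h1
    have hkc1 := hkc c hc
    have hrc1 := hrc c hc
    have h2 : k * (k * r) = c * c * (r * (k * k)) := by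
      calc k * (k * r) = k * c * (r * k) := by rw [h1]; group
        _ = c * (k * r) * k := by rw [hkc1]; group
        _ = c * (c * r * k) * k := by rw [h1]
        _ = _ := by group
    have h3 : k * (k * r) = r * (k * k) := by
      have := hrc _ hk2
      rw [pow_two] at this
      rw [this]; group
    have h4 : c * c = 1 := by
      rw [h3] at h2
      exact (mul_eq_right.1 h2.symm)
    calc r ^ 2 * k = c * c * r * r * k := by rw [h4, pow_two]; group
      _ = c * (c * r) * (r * k) := by group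
      _ = c * (r * c) * (r * k) := by rw [hrc1]
      _ = c * r * (c * r * k) := by group
      _ = c * r * (k * r) := by rw [h1]
      _ = (c * r * k) * r := by group
      _ = (k * r) * r := by rw [h1]
      _ = k * r ^ 2 := by rw [pow_two]; group
  · rw [commutatorElement_def]
    exact Q.mul_mem (Q.mul_mem (Q.mul_mem hr hr') (Q.inv_mem hr)) (Q.inv_mem hr')
  · obtain ⟨hkQ, hkc, hk2, hkq⟩ := (hK k).1 hk
    have hc := hkq r hr
    have hc' := hkq r' hr'
    have h1 : k * r * k⁻¹ = ⁅k, r⁆ * r := by rw [commutatorElement_def]; group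
    have h1' : k * r' * k⁻¹ = ⁅k, r'⁆ * r' := by rw [commutatorElement_def]; group
    generalize ⁅k, r⁆ = c at hc h1
    generalize ⁅k, r'⁆ = c' at hc' h1'
    have a1 := hrc c hc
    have a2 := hrc c' hc'
    have a3 := hrc' c hc
    have a4 := hrc' c' hc'
    have a5 := hAab c hc c' hc'
    have h2 : k * ⁅r, r'⁆ * k⁻¹ = ⁅r, r'⁆ := by
      have h5 : k * ⁅r, r'⁆ * k⁻¹ = ⁅k * r * k⁻¹, k * r' * k⁻¹⁆ := by
        simp only [commutatorElement_def]; group
      rw [h5, h1, h1']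
      have h6 : ((c * r) * (c' * r')) = (c * c') * (r * r') := by
        calc ((c * r) * (c' * r')) = c * (r * c') * r' := by group
          _ = c * (c' * r) * r' := by rw [a2]
          _ = _ := by group
      have h7 : ((c' * r') * (c * r)) = (c * c') * (r' * r) := by
        calc ((c' * r') * (c * r)) = c' * (r' * c) * r := by group
          _ = c' * (c * r') * r := by rw [a3]
          _ = (c' * c) * (r' * r) := by group
          _ = _ := by rw [a5]
      have h8 : ⁅c * r, c' * r'⁆ = ((c * r) * (c' * r')) * ((c' * r') * (c * r))⁻¹ := by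
        simp only [commutatorElement_def]; group
      have h9 : (c * c') * (r * r') = (r * r') * (c * c') := by
        calc (c * c') * (r * r') = c * (c' * r) * r' := by group
          _ = c * (r * c') * r' := by rw [a2]
          _ = (c * r) * (c' * r') := by group
          _ = (r * c) * (r' * c') := by rw [a1, a4]
          _ = r * (c * r') * c' := by group
          _ = r * (r' * c) * c' := by rw [a3]
          _ = _ := by group
      have h10 : (c * c') * (r' * r) = (r' * r) * (c * c') := by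
        calc (c * c') * (r' * r) = c * (c' * r') * r := by group
          _ = c * (r' * c') * r := by rw [a4]
          _ = (c * r') * (c' * r) := by group
          _ = (r' * c) * (r * c') := by rw [a3, a2]
          _ = r' * (c * r) * c' := by group
          _ = r' * (r * c) * c' := by rw [a1]
          _ = _ := by group
      rw [h8, h6, h7, h9, h10]
      simp only [commutatorElement_def]
      group
    rw [mul_inv_eq_iff_eq_mul] at h2
    exact h2.symm

end E1ad.helper49
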